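import Pool.Agent.TH50.BK.Main

set_option autoImplicit false

namespace Pool.Agent.Results.MP_b4ec01_an.FinitePowers

open Pool.Agent.Helper358.LOne

universe u

/-- Let `κ` have cardinality at least `ℵ_ω`. Then `C(B(κ))` is not isomorphic to `C(B(κ)^n)` for
any integer `n ≥ 2`; indeed, for natural numbers `m < n` no bounded linear operator from
`C(B(κ)^n)` to `C(B(κ)^m)` is bounded below.
(`B(κ) = Ball κ` carries the topology induced from the product `κ → ℝ`, and `≃L[ℝ]` is a linear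
homeomorphism for the norm topologies.) -/
theorem result (κ : Type u) (hκ : Cardinal.aleph Ordinal.omega0 ≤ Cardinal.mk κ) :
    (∀ n : ℕ, 2 ≤ n → IsEmpty (C(Ball κ, ℝ) ≃L[ℝ] C(Fin n → Ball κ, ℝ))) ∧
    (∀ m n : ℕ, m < n → ∀ (T : C(Fin n → Ball κ, ℝ) →L[ℝ] C(Fin m → Ball κ, ℝ)) (c : ℝ),
      0 < c → ¬ ∀ f, c * ‖f‖ ≤ ‖T f‖) := by
  have hΓ : ∀ v : ℕ, ∃ S : Set κ,
      Cardinal.mk S = Cardinal.aleph ((v + 1 : ℕ) : Ordinal.{u}) := by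
    intro v
    refine Cardinal.le_mk_iff_exists_set.mp (le_trans ?_ hκ)
    exact Cardinal.aleph_le_aleph.mpr (Ordinal.natCast_lt_omega0 _).le
  choose Γ hΓ using hΓ
  have h1 : ∀ m n : ℕ, m < n → ∀ (T : C(Fin n → Ball κ, ℝ) →L[ℝ] C(Fin m → Ball κ, ℝ)) (c : ℝ),
      0 < c → ¬ ∀ f, c * ‖f‖ ≤ ‖T f‖ := fun m n hmn T c hc hT =>
    Pool.Agent.TH50.BK.no_embedding Γ hΓ hmn T hc hT
  refine ⟨fun n hn => ⟨fun e => ?_⟩, h1⟩
  let d : C(Fin 1 → Ball κ, Ball κ) := ⟨fun x => x 0, continuous_apply 0⟩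
  let P : C(Ball κ, ℝ) →L[ℝ] C(Fin 1 → Ball κ, ℝ) :=
    { toFun := fun g => g.comp d
      map_add' := fun f g => by ext x; rfl
      map_smul' := fun r f => by ext x; rfl
      cont := ContinuousMap.continuous_precomp d }
  have hP : ∀ g, ‖g‖ ≤ ‖P g‖ := fun g => by
    refine (ContinuousMap.norm_le _ (norm_nonneg _)).mpr fun x => ?_
    exact (P g).norm_coe_le_norm (fun _ => x)
  let S : C(Fin n → Ball κ, ℝ) →L[ℝ] C(Fin 1 → Ball κ, ℝ) :=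
    P.comp (e.symm : C(Fin n → Ball κ, ℝ) →L[ℝ] C(Ball κ, ℝ))
  obtain ⟨K, hK⟩ : ∃ K : ℝ, ∀ g, ‖e g‖ ≤ K * ‖g‖ :=
    ⟨_, (e : C(Ball κ, ℝ) →L[ℝ] C(Fin n → Ball κ, ℝ)).le_opNorm⟩
  have hK0 : 0 < |K| + 1 := by positivity
  refine h1 1 n (by omega) S (|K| + 1)⁻¹ (inv_pos.mpr hK0) fun g => ?_
  have h3 : ‖g‖ ≤ (|K| + 1) * ‖e.symm g‖ := by
    have h4 := hK (e.symm g)
    rw [ContinuousLinearEquiv.apply_symm_apply] at h4
    refine h4.trans (mul_le_mul_of_nonneg_right ?_ (norm_nonneg _))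
    linarith [le_abs_self K]
  calc (|K| + 1)⁻¹ * ‖g‖ ≤ (|K| + 1)⁻¹ * ((|K| + 1) * ‖e.symm g‖) :=
        mul_le_mul_of_nonneg_left h3 (inv_pos.mpr hK0).le
    _ = ‖e.symm g‖ := by rw [inv_mul_cancel_left₀ hK0.ne']
    _ ≤ ‖S g‖ := hP _

end Pool.Agent.Results.MP_b4ec01_an.FinitePowers
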